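import Pool.Agent.Helper83.KI11

/-!
# Maximum regular `k`-independent set on `r`-regular graphs is NP-complete
-/

namespace Pool.Agent.Results.MP_e81a45_lc.RegKMISComplete

open Pool.Agent.Helper83.KDef

/-- For every `k ≥ 1` and every `r ≥ max 3 (k + 1)` the problem reg-`k`MIS restricted to
`r`-regular graphs is NP-complete, both as a problem whose instances are the `r`-regular graphs
and as a problem on all graphs (graphs which are not `r`-regular being no-instances). -/
theorem result : ∀ k r : ℕ, 1 ≤ k → max 3 (k + 1) ≤ r →
    (regKMIS k r).NPComplete ∧ (regKMISAll k r).NPComplete :=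
  fun _ _ hk hr => Pool.Agent.Helper83.KI.regKMIS_npComplete hk hr

end Pool.Agent.Results.MP_e81a45_lc.RegKMISComplete
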